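import Pool.Agent.L7h93.TH.Stm

/-! # Parts UP and LOW of project TH (helper93): the dimension of the space of theta functions -/

set_option autoImplicit false

namespace Pool.Agent.L7h10.TH

open Pool.Agent.Results.MP_e16cda_ag.ThreeMomentsFail Finset
open Pool.Agent.L7h93.TH

theorem dot_norm {g : ℕ} (s : Lat g) (x : Sp g) : ‖dot s x‖ ≤ (∑ i, ‖x i‖) * sz s := by
  unfold dot sz
  calc ‖∑ i, (s i : ℂ) * x i‖ ≤ ∑ i, |(s i : ℝ)| * ‖x i‖ := by
        refine (norm_sum_le _ _).trans (le_of_eq ?_)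
        refine Finset.sum_congr rfl fun i _ => ?_
        rw [norm_mul, Complex.norm_intCast]
    _ ≤ ∑ i, |(s i : ℝ)| * ∑ j, ‖x j‖ := by
        refine Finset.sum_le_sum fun i hi => mul_le_mul_of_nonneg_left ?_ (abs_nonneg _)
        exact Finset.single_le_sum (f := fun j => ‖x j‖) (fun j _ => norm_nonneg _) hi
    _ = _ := by rw [← Finset.sum_mul, mul_comm]

theorem summ {g : ℕ} {c : Lat g → ℂ} (hc : Dec c) (x : Sp g) :
    Summable fun s => c s * Complex.exp (2 * Real.pi * dot s x) := by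
  refine Summable.of_norm_bounded (hc (2 * Real.pi * ∑ i, ‖x i‖)) fun s => ?_
  rw [norm_mul]
  refine mul_le_mul_of_nonneg_left ?_ (norm_nonneg _)
  rw [Complex.norm_exp]
  apply Real.exp_le_exp.2
  refine (Complex.re_le_norm _).trans ?_
  rw [norm_mul, norm_mul, Complex.norm_ofNat, Complex.norm_real, Real.norm_of_nonneg Real.pi_pos.le, mul_assoc (2 * Real.pi)]
  exact mul_le_mul_of_nonneg_left (dot_norm s x) (by positivity)

theorem lin {g : ℕ} (h : S_DEC) {B : Matrix (Fin g) (Fin g) ℂ} (hB : IsParameter B) {n : ℕ} (hn : 1 ≤ n) {t : Sp g}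
    {J : Type} [Fintype J] (C : J → Lat g → ℂ) (hC : ∀ j, QP n t (C j)) (c : J → ℂ) (x : Sp g) :
    ∑ j, c j * Fs (co B n (C j)) x = Fs (co B n fun s => ∑ j, c j * C j s) x := by
  unfold Fs
  have hs : ∀ j ∈ (Finset.univ : Finset J), Summable fun s => c j * (co B n (C j) s * Complex.exp (2 * Real.pi * dot s x)) :=
    fun j _ => (summ (h g B hB n hn t (C j) (hC j)) x).mul_left _
  rw [Finset.sum_congr rfl fun j _ => (tsum_mul_left (a := c j)
    (f := fun s => co B n (C j) s * Complex.exp (2 * Real.pi * dot s x))).symm, ← Summable.tsum_finsetSum hs]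
  refine tsum_congr fun s => ?_
  unfold co
  rw [Finset.sum_mul, Finset.sum_mul]
  exact Finset.sum_congr rfl fun j _ => by ring

theorem qp_zero {g n : ℕ} {C : Lat g → ℂ} (h : QP n 0 C) (s k : Lat g) : C (s + (n : ℤ) • k) = C s := by
  rw [h s k]
  simp [dot]

theorem s_UP (h : S_DEC) : S_UP := by
  classical
  intro g B hB n hn J _ hcard f hf
  choose C hC hf using hf
  set v : J → ((Fin g → Fin n) → ℂ) := fun j σ => C j (fun i => ((σ i : ℕ) : ℤ)) with hv
  have hli : ¬ LinearIndependent ℂ v := by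
    intro hli
    have := hli.fintype_card_le_finrank
    rw [Module.finrank_fintype_fun_eq_card, Fintype.card_fun, Fintype.card_fin, Fintype.card_fin] at this
    omega
  obtain ⟨c, hc, j0, hj0⟩ := Fintype.not_linearIndependent_iff.1 hli
  refine ⟨c, fun h0 => hj0 (congrFun h0 j0), fun x => ?_⟩
  have hn0 : (0 : ℤ) < n := by exact_mod_cast hn
  have hz : ∀ s : Lat g, ∑ j, c j * C j s = 0 := by
    intro s
    have hr : ∀ i, 0 ≤ s i % (n : ℤ) ∧ s i % (n : ℤ) < n := fun i => ⟨Int.emod_nonneg _ hn0.ne', Int.emod_lt_of_pos _ hn0⟩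
    let σ : Fin g → Fin n := fun i => ⟨(s i % (n : ℤ)).toNat, by have := hr i; omega⟩
    have hs : s = (fun i => ((σ i : ℕ) : ℤ)) + (n : ℤ) • (fun i => s i / (n : ℤ)) := by
      funext i
      have h1 : (((σ i : ℕ) : ℤ)) = s i % (n : ℤ) := Int.toNat_of_nonneg (hr i).1
      simp only [Pi.add_apply, Pi.smul_apply, smul_eq_mul, h1]
      exact (Int.emod_add_mul_ediv (s i) n).symm
    have h2 : ∀ j, C j s = v j σ := by
      intro j
      conv_lhs => rw [hs]
      rw [qp_zero (hC j)]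
    have h3 := congrFun hc σ
    simp only [Finset.sum_apply, Pi.smul_apply, smul_eq_mul, Pi.zero_apply] at h3
    rw [← h3]
    exact Finset.sum_congr rfl fun j _ => by rw [h2]
  have h4 := lin h hB hn C hC c x
  calc ∑ j, c j * f j x = ∑ j, c j * Fs (co B n (C j)) x := Finset.sum_congr rfl fun j _ => by rw [hf j]
    _ = Fs (co B n fun s => ∑ j, c j * C j s) x := h4
    _ = 0 := by
        unfold Fs co
        simp [hz]

theorem s_LOW (h : S_DEC) (h1 : S_UNI) : S_LOW := by
  classical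
  intro g B hB n hn
  have hn0 : (0 : ℤ) < n := by exact_mod_cast hn
  set C : (Fin g → Fin n) → Lat g → ℂ := fun σ s => if ∀ i, s i % (n : ℤ) = ((σ i : ℕ) : ℤ) then 1 else 0 with hCd
  have hC : ∀ σ, QP n 0 (C σ) := by
    intro σ s k
    have e1 : ∀ i, (s + (n : ℤ) • k) i % (n : ℤ) = s i % (n : ℤ) := by
      intro i
      simp [Pi.add_apply, Pi.smul_apply, smul_eq_mul]
    simp only [hCd, e1]
    simp [dot]
  refine ⟨fun σ => Fs (co B n (C σ)), fun σ => ⟨C σ, hC σ, rfl⟩, ?_⟩
  rw [Fintype.linearIndependent_iff]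
  intro c hc σ0
  have hQP : QP n 0 (fun s => ∑ σ, c σ * C σ s) := by
    intro s k
    simp only [hC _ s k]
    rw [Finset.mul_sum]
    exact Finset.sum_congr rfl fun σ _ => by ring
  have h2 : ∀ x, Fs (co B n fun s => ∑ σ, c σ * C σ s) x = 0 := by
    intro x
    rw [← lin h hB hn C hC c x]
    have := congrFun hc x
    simpa [Finset.sum_apply, Pi.smul_apply, smul_eq_mul] using this
  have h3 := h1 g _ (h g B hB n hn 0 _ hQP) h2
  have h4 := congrFun h3 (fun i => ((σ0 i : ℕ) : ℤ))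
  unfold co at h4
  simp only [Pi.zero_apply, mul_eq_zero, Complex.exp_ne_zero, or_false] at h4
  rw [Finset.sum_eq_single σ0] at h4
  · have hm : ∀ i, (((σ0 i : ℕ) : ℤ)) % (n : ℤ) = ((σ0 i : ℕ) : ℤ) := fun i =>
      Int.emod_eq_of_lt (by positivity) (by exact_mod_cast (σ0 i).2)
    simpa [hCd, hm] using h4
  · intro σ _ hne
    have : ¬ ∀ i, (((σ0 i : ℕ) : ℤ)) % (n : ℤ) = ((σ i : ℕ) : ℤ) := by
      intro hall
      apply hne
      funext i
      apply Fin.ext
      have hm : (((σ0 i : ℕ) : ℤ)) % (n : ℤ) = ((σ0 i : ℕ) : ℤ) :=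
        Int.emod_eq_of_lt (by positivity) (by exact_mod_cast (σ0 i).2)
      have := hall i
      rw [hm] at this
      exact_mod_cast this.symm
    simp [hCd, this]
  · intro hn
    exact absurd (Finset.mem_univ _) hn

end Pool.Agent.L7h10.TH
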